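import Pool.Agent.H99.PW.F

/-!
# MP_4a7829_pr: transient planar walks with all moments of order less than 2 finite

The walk on a planar discrete point process is recurrent when the tail `P(f_e ≥ k)` of the distance
`f_e` to the nearest point in each coordinate direction is `O(1 / k²)` (this is the listed
criterion). We give a discrete point process on `ℤ²` with a transient walk whose tail is at most
`C (log k)¹² / k²`; all moments of `f_e` of order less than `2` are finite.

Construction. `ω (x, y)` depends on `s = x + y` and a uniform 2-adic integer `z` only: `s` is empty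
if for some `j` the residue of `z + s` modulo `2 ^ m j` lies strictly between `0` and `2 ^ n j`,
where `2 ^ n j` is `2 ^ (m j / 2)` up to a power of `j`. So the windows are much longer than the
periods of many previous scales. Averages of a function over segments of `2 ^ w j` diagonal sites,
`w j` slightly larger than `m j`, at the edges of the windows compare with a total error bounded by
the square root of the energy: crossing a window of length `2 ^ n j` back and forth moves a segment
along the diagonal by `2 ^ n j`.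
-/

set_option autoImplicit false

open MeasureTheory ProbabilityTheory
open scoped ENNReal

namespace Pool.Agent.Results.MP_4a7829_pr.AlmostSecondMoments

/-- The shift `(θ_x ω)(y) = ω (x + y)` of a configuration. -/
def shift (x : ℤ × ℤ) (ω : ℤ × ℤ → Bool) : ℤ × ℤ → Bool := fun y => ω (x + y)

/-- `Q` is a discrete point process on `ℤ²`: a probability measure on the configurations for which
each of the two unit shifts is measure preserving and ergodic, and which is not concentrated on the
empty configuration. -/
def IsDPP (Q : Measure (ℤ × ℤ → Bool)) : Prop :=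
  IsProbabilityMeasure Q ∧ Ergodic (shift (1, 0)) Q ∧ Ergodic (shift (0, 1)) Q ∧
    Q {ω | ∀ x, ω x = false} < 1

/-- `P = Q(· | ω 0 = 1)`. -/
noncomputable def palm (Q : Measure (ℤ × ℤ → Bool)) : Measure (ℤ × ℤ → Bool) :=
  ProbabilityTheory.cond Q {ω | ω 0 = true}

/-- The four unit vectors. -/
def dir : Fin 4 → ℤ × ℤ := ![(1, 0), (-1, 0), (0, 1), (0, -1)]

/-- `f_e(ω) = min {k > 0 : ω (k e) = 1}`. -/
noncomputable def dist (e : ℤ × ℤ) (ω : ℤ × ℤ → Bool) : ℕ := sInf {k | 0 < k ∧ ω (k • e) = true}

/-- The nearest point from `v` in the direction number `d`. -/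
noncomputable def next (ω : ℤ × ℤ → Bool) (v : ℤ × ℤ) (d : Fin 4) : ℤ × ℤ :=
  v + dist (dir d) (shift v ω) • dir d

/-- The law of a sequence of independent uniform direction numbers. -/
noncomputable def dirLaw : Measure (ℕ → Fin 4) := Measure.infinitePi fun _ => uniformOn Set.univ

/-- The walk from the origin which at time `n` moves to the nearest point in direction `ξ n`. Under
`dirLaw` its law is the quenched law `P_ω`. -/
noncomputable def walk (ω : ℤ × ℤ → Bool) (ξ : ℕ → Fin 4) : ℕ → ℤ × ℤ
  | 0 => 0
  | n + 1 => next ω (walk ω ξ n) (ξ n)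

lemma walk_eq (ω : ℤ × ℤ → Bool) (ξ : ℕ → Fin 4) (n : ℕ) :
    walk ω ξ n = Pool.Agent.H.MP_01c081_pr.walk (Pool.Agent.H.MP_01c081_pr.nbr ω) 0 ξ n := by
  induction n with
  | zero => rfl
  | succ n ih => rw [walk, ih]; rfl

/-- There is a discrete point process `Q` on `ℤ²` such that

1. `P(f_e ≥ k) ≤ C (log k)¹² / k²` for all `k ≥ 2` and all four unit vectors `e`;
2. `E_P(f_e ^ s) < ∞` for all `0 ≤ s < 2` and all four unit vectors `e`;
3. for `P`-almost every `ω` every point of `ℤ²` has points of `ω` in all four directions, and the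
   walk visits the origin only finitely often almost surely. -/
theorem result : ∃ Q : Measure (ℤ × ℤ → Bool), IsDPP Q ∧ Q {ω | ω 0 = true} ≠ 0 ∧
    (∃ C : ℝ, ∀ (d : Fin 4) (k : ℕ), 2 ≤ k →
      (palm Q).real {ω | k ≤ dist (dir d) ω} ≤ C * (Real.log k ^ 12 / (k : ℝ) ^ 2)) ∧
    (∀ s : ℝ, 0 ≤ s → s < 2 → ∀ d : Fin 4,
      ∫⁻ ω, ((dist (dir d) ω : ℕ) : ℝ≥0∞) ^ s ∂(palm Q) < ⊤) ∧
    ∀ᵐ ω ∂(palm Q), (∀ v d, ∃ k : ℕ, 0 < k ∧ ω (v + k • dir d) = true) ∧
      ∀ᵐ ξ ∂dirLaw, {n | walk ω ξ n = 0}.Finite := by
  obtain ⟨Q, h1, h2, h3, h4, h5⟩ := Pool.Agent.H99.PW.main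
  refine ⟨Q, h1, h2, h3, h4, ?_⟩
  filter_upwards [h5] with ω h
  refine ⟨h.1, ?_⟩
  filter_upwards [h.2] with ξ h6
  simp only [walk_eq]
  exact h6

end Pool.Agent.Results.MP_4a7829_pr.AlmostSecondMoments
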